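import Pool.Agent.helper25.CX.Spec

set_option autoImplicit false

namespace Pool.Agent.CX

open MeasureTheory Set Filter Topology
open scoped ENNReal
open Pool.Agent.helper81.CW

theorem CON_polar (n : ℕ) (h : E n → ℝ≥0∞) (hh : Measurable h) (hn : 0 < n) :
    ∫⁻ x, h x = ∫⁻ θ : Metric.sphere (0 : E n) 1, ∫⁻ r : Ioi (0 : ℝ), h ((r : ℝ) • (θ : E n))
      ∂(Measure.volumeIoiPow (n - 1)) ∂((volume : Measure (E n)).toSphere) := by
  have : Nonempty (Fin n) := ⟨⟨0, hn⟩⟩
  have : Nontrivial (E n) := inferInstance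
  have hd : Module.finrank ℝ (E n) = n := by simp
  have h1 : ∫⁻ x, h x = ∫⁻ x : ({0}ᶜ : Set (E n)), h x
      ∂((volume : Measure (E n)).comap (↑)) := by
    rw [lintegral_subtype_comap (measurableSet_singleton _).compl, restrict_compl_singleton]
  have h2 := (volume : Measure (E n)).measurePreserving_homeomorphUnitSphereProd.lintegral_comp_emb
    (Homeomorph.measurableEmbedding _) (fun p => h ((p.2 : ℝ) • (p.1 : E n)))
  rw [h1]
  have h3 : ∀ x : ({0}ᶜ : Set (E n)),
      (((homeomorphUnitSphereProd (E n) x).2 : ℝ)) • (((homeomorphUnitSphereProd (E n) x).1 : E n)) =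
        (x : E n) := by
    intro x
    have hx : (x : E n) ≠ 0 := x.2
    have hx' : ‖(x : E n)‖ ≠ 0 := norm_ne_zero_iff.mpr hx
    rw [homeomorphUnitSphereProd_apply_snd_coe, homeomorphUnitSphereProd_apply_fst_coe, smul_smul,
      mul_inv_cancel₀ hx', one_smul]
  simp only [h3] at h2
  rw [h2, hd, lintegral_prod]
  fun_prop

theorem CON_gm (n : ℕ) (hn : 0 < n) (f : E n → ℝ) (hf : Measurable f)
    (hom : ∀ (x : E n) (t : ℝ), 0 < t → f (t • x) = f x) :
    ∫⁻ x, ENNReal.ofReal (f x) ∂(gm n) =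
      (∫⁻ θ : Metric.sphere (0 : E n) 1, ENNReal.ofReal (f θ) ∂((volume : Measure (E n)).toSphere)) *
      ∫⁻ r : Ioi (0 : ℝ), ENNReal.ofReal (Real.exp (-(r : ℝ) ^ 2 / 2) / Real.sqrt (2 * Real.pi) ^ n)
        ∂(Measure.volumeIoiPow (n - 1)) := by
  rw [gm, lintegral_withDensity_eq_lintegral_mul _ (by fun_prop) (by fun_prop)]
  rw [CON_polar n _ (by
    apply Measurable.mul
    · fun_prop
    · fun_prop) hn]
  rw [← lintegral_mul_const _ (by fun_prop)]
  apply lintegral_congr
  intro θ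
  rw [← lintegral_const_mul' _ _ ENNReal.ofReal_ne_top]
  apply lintegral_congr
  intro r
  have hr : (0 : ℝ) < r := r.2
  have hθ : ‖(θ : E n)‖ = 1 := by simp
  simp only [Pi.mul_apply, hom _ _ hr, norm_smul, hθ, mul_one, Real.norm_eq_abs, sq_abs]
  rw [mul_comm]

/-- the volume of the intersection with the ball -/
theorem CON_vol (n : ℕ) (hn : 0 < n) (S : Set (E n)) (hS : MeasurableSet S)
    (hc : ∀ (x : E n) (t : ℝ), 0 < t → (t • x ∈ S ↔ x ∈ S)) :
    volume (S ∩ Metric.closedBall (0 : E n) 1) =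
      (∫⁻ θ : Metric.sphere (0 : E n) 1, S.indicator (1 : E n → ℝ≥0∞) θ
        ∂((volume : Measure (E n)).toSphere)) *
      Measure.volumeIoiPow (n - 1) {r : Ioi (0 : ℝ) | (r : ℝ) ≤ 1} := by
  have hm : MeasurableSet (S ∩ Metric.closedBall (0 : E n) 1) :=
    hS.inter Metric.isClosed_closedBall.measurableSet
  have hone : Measurable (fun θ : Metric.sphere (0 : E n) 1 => S.indicator (1 : E n → ℝ≥0∞) θ) :=
    (measurable_one.indicator hS).comp measurable_subtype_coe
  rw [← lintegral_indicator_one hm, CON_polar n _ (measurable_one.indicator hm) hn,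
    ← lintegral_mul_const _ hone]
  apply lintegral_congr
  intro θ
  have hθ : ‖(θ : E n)‖ = 1 := by simp
  have hms : MeasurableSet {r : Ioi (0 : ℝ) | (r : ℝ) ≤ 1} :=
    measurableSet_le measurable_subtype_coe measurable_const
  rw [← lintegral_indicator_one hms, ← lintegral_const_mul _ (measurable_one.indicator hms)]
  apply lintegral_congr
  intro r
  have hr : (0 : ℝ) < r := r.2
  have h1 : ((r : ℝ) • (θ : E n)) ∈ Metric.closedBall (0 : E n) 1 ↔
      r ∈ {r : Ioi (0 : ℝ) | (r : ℝ) ≤ 1} := by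
    rw [mem_closedBall_zero_iff, norm_smul, hθ, mul_one, Real.norm_eq_abs, abs_of_pos hr]
    rfl
  have h2 := hc (θ : E n) r hr
  by_cases a : (θ : E n) ∈ S
  · by_cases b : r ∈ {r : Ioi (0 : ℝ) | (r : ℝ) ≤ 1}
    · rw [indicator_of_mem (show (r : ℝ) • (θ : E n) ∈ S ∩ _ from ⟨h2.2 a, h1.2 b⟩),
        indicator_of_mem a, indicator_of_mem b]
      simp
    · rw [indicator_of_notMem (fun h => b (h1.1 h.2)), indicator_of_notMem b, mul_zero]
  · rw [indicator_of_notMem (fun h => a (h2.1 h.1)), indicator_of_notMem a, zero_mul]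

theorem CON (hG1 : G1_stmt) : CON_stmt := by
  intro n S hn hS hcone
  have := (hG1 n).1
  have hc : ∀ (x : E n) (t : ℝ), 0 < t → (t • x ∈ S ↔ x ∈ S) := by
    intro x t ht
    refine ⟨fun h => ?_, fun h => hcone x h t ht⟩
    have h1 := hcone _ h t⁻¹ (inv_pos.2 ht)
    rwa [smul_smul, inv_mul_cancel₀ ht.ne', one_smul] at h1
  have hu := CON_vol n hn univ MeasurableSet.univ (fun _ _ _ => Iff.rfl)
  have hs := CON_vol n hn S hS hc
  have gu := CON_gm n hn (fun _ => 1) measurable_const (fun _ _ _ => rfl)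
  have gs := CON_gm n hn (S.indicator 1) (measurable_one.indicator hS) (fun x t ht => by
    by_cases a : x ∈ S
    · rw [indicator_of_mem a, indicator_of_mem ((hc x t ht).2 a)]
      rfl
    · rw [indicator_of_notMem a, indicator_of_notMem (fun h => a ((hc x t ht).1 h))])
  have hof : ∀ x : E n, ENNReal.ofReal (S.indicator (1 : E n → ℝ) x) =
      S.indicator (1 : E n → ℝ≥0∞) x := by
    intro x
    by_cases a : x ∈ S
    · rw [indicator_of_mem a, indicator_of_mem a]
      simp
    · rw [indicator_of_notMem a, indicator_of_notMem a, ENNReal.ofReal_zero]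
  simp only [hof] at gs
  rw [lintegral_indicator_one hS] at gs
  simp only [ENNReal.ofReal_one, lintegral_const, measure_univ, mul_one, one_mul] at gu
  rw [univ_inter] at hu
  simp only [indicator_univ, Pi.one_apply, lintegral_const, one_mul] at hu
  rw [hs, gs, hu]
  set K := ∫⁻ r : Ioi (0 : ℝ), ENNReal.ofReal (Real.exp (-(r : ℝ) ^ 2 / 2) / Real.sqrt (2 * Real.pi) ^ n)
        ∂(Measure.volumeIoiPow (n - 1)) with hK
  rw [mul_assoc, ← mul_assoc K, mul_comm K, ← gu, one_mul]

end Pool.Agent.CX
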